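/-
MP_ad5d82_an, part A4, module EG1: simple reflections and the invariant form (helper5).
-/
import Pool.Agent.Lib.MP_ad5d82_an.h24.EigDefs

set_option autoImplicit false

namespace Pool.MP_ad5d82_an.Eig

open Matrix

variable {ι : Type} [Fintype ι] [DecidableEq ι]

omit [DecidableEq ι] in
theorem eg1_pj_apply (K : Matrix ι ι ℤ) (j : ι) (x : ι → ℝ) :
    pj K j x = ∑ i, (K i j : ℝ) * x i := by
  simp only [pj, LinearMap.coe_sum, Finset.sum_apply, LinearMap.smul_apply, LinearMap.proj_apply,
    smul_eq_mul]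

theorem eg1_pj_single (K : Matrix ι ι ℤ) (i j : ι) :
    pj K j (Pi.single i 1) = (K i j : ℝ) := by
  rw [eg1_pj_apply, Finset.sum_eq_single i]
  · simp
  · intro k _ hk
    simp [Pi.single_eq_of_ne hk]
  · intro h
    exact absurd (Finset.mem_univ i) h

theorem eg1_sr (K : Matrix ι ι ℤ) (j : ι) (x : ι → ℝ) :
    sr K j x = x - pj K j x • Pi.single j 1 := by
  simp [sr]

theorem sr_sr {K : Matrix ι ι ℤ} (hK : IsFT K) (j : ι) (x : ι → ℝ) :
    sr K j (sr K j x) = x := by
  rw [eg1_sr, eg1_sr, map_sub, map_smul, eg1_pj_single, hK.diag]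
  push_cast
  simp only [smul_eq_mul]
  module

theorem act_append (K : Matrix ι ι ℤ) (L L' : List ι) (x : ι → ℝ) :
    act K (L ++ L') x = act K L (act K L' x) := by
  induction L with
  | nil => simp [act]
  | cons j L ih =>
    simp only [List.cons_append, act, LinearMap.comp_apply]
    rw [ih]

theorem act_reverse {K : Matrix ι ι ℤ} (hK : IsFT K) (L : List ι) (x : ι → ℝ) :
    act K L.reverse (act K L x) = x := by
  induction L with
  | nil => simp [act]
  | cons j L ih =>
    rw [List.reverse_cons, act_append]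
    simp only [act, LinearMap.comp_apply, LinearMap.id_apply]
    rw [sr_sr hK, ih]

omit [DecidableEq ι] in
theorem eg1_form_add_left (K : Matrix ι ι ℤ) (d x x' y : ι → ℝ) :
    form K d (x + x') y = form K d x y + form K d x' y := by
  simp only [form, Pi.add_apply, ← Finset.sum_add_distrib]
  refine Finset.sum_congr rfl fun i _ => Finset.sum_congr rfl fun j _ => ?_
  ring

omit [DecidableEq ι] in
theorem eg1_form_smul_left (K : Matrix ι ι ℤ) (d : ι → ℝ) (c : ℝ) (x y : ι → ℝ) :
    form K d (c • x) y = c * form K d x y := by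
  simp only [form, Pi.smul_apply, smul_eq_mul, Finset.mul_sum]
  refine Finset.sum_congr rfl fun i _ => Finset.sum_congr rfl fun j _ => ?_
  ring

omit [DecidableEq ι] in
theorem eg1_form_add_right (K : Matrix ι ι ℤ) (d x y y' : ι → ℝ) :
    form K d x (y + y') = form K d x y + form K d x y' := by
  simp only [form, Pi.add_apply, ← Finset.sum_add_distrib]
  refine Finset.sum_congr rfl fun i _ => Finset.sum_congr rfl fun j _ => ?_
  ring

omit [DecidableEq ι] in
theorem eg1_form_smul_right (K : Matrix ι ι ℤ) (d : ι → ℝ) (c : ℝ) (x y : ι → ℝ) :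
    form K d x (c • y) = c * form K d x y := by
  simp only [form, Pi.smul_apply, smul_eq_mul, Finset.mul_sum]
  refine Finset.sum_congr rfl fun i _ => Finset.sum_congr rfl fun j _ => ?_
  ring

theorem eg1_form_single (K : Matrix ι ι ℤ) (d : ι → ℝ) (j : ι) (x : ι → ℝ) :
    form K d x (Pi.single j 1) = pj K j x / d j := by
  rw [eg1_pj_apply, form, Finset.sum_div]
  refine Finset.sum_congr rfl fun i _ => ?_
  rw [Finset.sum_eq_single j]
  · simp only [Pi.single_eq_same, mul_one]
    rw [div_eq_mul_inv]; ring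
  · intro k _ hk
    simp [Pi.single_eq_of_ne hk]
  · intro h
    exact absurd (Finset.mem_univ j) h

theorem eg1_coercive {K : Matrix ι ι ℤ} {d : ι → ℝ}
    (hpos : ∀ x, x ≠ 0 → 0 < form K d x x) :
    ∃ c : ℝ, 0 < c ∧ ∀ x i, c * x i ^ 2 ≤ form K d x x := by
  have hcont : Continuous fun x : ι → ℝ => form K d x x := by
    unfold form
    fun_prop
  rcases (Metric.sphere (0 : ι → ℝ) 1).eq_empty_or_nonempty with he | hne
  · refine ⟨1, one_pos, fun x i => ?_⟩
    exfalso
    have h1 : (Pi.single i 1 : ι → ℝ) ∈ Metric.sphere (0 : ι → ℝ) 1 := by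
      rw [mem_sphere_zero_iff_norm, Pi.norm_single, norm_one]
    rw [he] at h1
    exact h1
  · obtain ⟨x0, hx0, hmin⟩ := (isCompact_sphere (0 : ι → ℝ) 1).exists_isMinOn hne
      hcont.continuousOn
    have hx0' : x0 ≠ 0 := by
      rintro rfl
      rw [mem_sphere_zero_iff_norm, norm_zero] at hx0
      exact zero_ne_one hx0
    refine ⟨form K d x0 x0, hpos x0 hx0', fun x i => ?_⟩
    rcases eq_or_ne x 0 with rfl | hx
    · simp [form]
    have hn : 0 < ‖x‖ := norm_pos_iff.mpr hx
    have h1 : ‖x‖⁻¹ • x ∈ Metric.sphere (0 : ι → ℝ) 1 := by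
      rw [mem_sphere_zero_iff_norm, norm_smul, norm_inv, norm_norm, inv_mul_cancel₀ hn.ne']
    have h2 : form K d x0 x0 ≤ form K d (‖x‖⁻¹ • x) (‖x‖⁻¹ • x) := hmin h1
    rw [eg1_form_smul_left, eg1_form_smul_right] at h2
    have h3 : form K d x0 x0 * ‖x‖ ^ 2 ≤ form K d x x := by
      have h4 : ‖x‖⁻¹ * (‖x‖⁻¹ * form K d x x) * ‖x‖ ^ 2 = form K d x x := by
        field_simp
      rw [← h4]
      exact mul_le_mul_of_nonneg_right h2 (by positivity)
    refine le_trans ?_ h3
    have h5 : x i ^ 2 ≤ ‖x‖ ^ 2 := by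
      rw [← sq_abs (x i), ← Real.norm_eq_abs]
      exact pow_le_pow_left₀ (norm_nonneg _) (norm_le_pi_norm x i) 2
    exact mul_le_mul_of_nonneg_left h5 (hpos x0 hx0').le

/-- Existence of symmetrising weights with all properties of the form. -/
theorem exists_form {K : Matrix ι ι ℤ} (hK : IsFT K) :
    ∃ d : ι → ℝ, (∀ a, 0 < d a) ∧ (∀ a b, d a * (K a b : ℝ) = d b * (K b a : ℝ)) ∧
      (∀ x y, form K d x y = form K d y x) ∧
      (∀ x, x ≠ 0 → 0 < form K d x x) ∧
      (∀ j x, form K d x (Pi.single j 1) = pj K j x / d j) ∧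
      (∀ j x y, form K d (sr K j x) (sr K j y) = form K d x y) ∧
      (∀ L x y, form K d (act K L x) (act K L y) = form K d x y) ∧
      (∃ c : ℝ, 0 < c ∧ ∀ x i, c * x i ^ 2 ≤ form K d x x) := by
  obtain ⟨d, hd, hpd⟩ := hK.pd
  have hsym : ∀ a b, d a * (K a b : ℝ) = d b * (K b a : ℝ) := by
    intro a b
    have h := hpd.isHermitian
    have h2 := congrFun (congrFun h b) a
    simp only [Matrix.conjTranspose_apply, Matrix.of_apply, star_trivial] at h2
    exact h2
  have hsym' : ∀ a b, (K a b : ℝ) * (d b)⁻¹ = (K b a : ℝ) * (d a)⁻¹ := by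
    intro a b
    have h := hsym a b
    have ha := (hd a).ne'
    have hb := (hd b).ne'
    field_simp
    linarith
  have hcomm : ∀ x y, form K d x y = form K d y x := by
    intro x y
    simp only [form]
    rw [Finset.sum_comm]
    refine Finset.sum_congr rfl fun i _ => Finset.sum_congr rfl fun j _ => ?_
    have := hsym' j i
    calc x j * (K j i : ℝ) * (d i)⁻¹ * y i = x j * ((K j i : ℝ) * (d i)⁻¹) * y i := by ring
      _ = x j * ((K i j : ℝ) * (d j)⁻¹) * y i := by rw [this]
      _ = y i * (K i j : ℝ) * (d j)⁻¹ * x j := by ring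
  have hpos : ∀ x, x ≠ 0 → 0 < form K d x x := by
    intro x hx
    have hz : (fun i => x i / d i) ≠ 0 := by
      intro h
      apply hx
      funext i
      have := congrFun h i
      simp only [Pi.zero_apply, div_eq_zero_iff] at this
      rcases this with h1 | h1
      · exact h1
      · exact absurd h1 (hd i).ne'
    have h := hpd.dotProduct_mulVec_pos hz
    have h2 : star (fun i => x i / d i) ⬝ᵥ ((Matrix.of fun a b => d a * (K a b : ℝ)) *ᵥ
        fun i => x i / d i) = form K d x x := by
      simp only [dotProduct, Matrix.mulVec, Matrix.of_apply, form, Pi.star_apply, star_trivial,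
        Finset.mul_sum]
      refine Finset.sum_congr rfl fun i _ => Finset.sum_congr rfl fun j _ => ?_
      have ha := (hd i).ne'
      have hb := (hd j).ne'
      field_simp
    rw [h2] at h
    exact h
  have hsingle : ∀ j x, form K d x (Pi.single j 1) = pj K j x / d j :=
    fun j x => eg1_form_single K d j x
  have hsr : ∀ j x y, form K d (sr K j x) (sr K j y) = form K d x y := by
    intro j x y
    have e : ∀ z, sr K j z = z + (-pj K j z) • (Pi.single j 1 : ι → ℝ) := by
      intro z
      rw [eg1_sr, neg_smul, sub_eq_add_neg]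
    rw [e x, e y, eg1_form_add_left, eg1_form_add_right, eg1_form_add_right, eg1_form_smul_left,
      eg1_form_smul_left, eg1_form_smul_right, eg1_form_smul_right, hsingle, hsingle,
      hcomm (Pi.single j 1) y, hsingle, eg1_pj_single, hK.diag]
    push_cast
    have ha := (hd j).ne'
    field_simp
    ring
  refine ⟨d, hd, hsym, hcomm, hpos, hsingle, hsr, ?_, eg1_coercive hpos⟩
  intro L
  induction L with
  | nil => intro x y; simp [act]
  | cons j L ih =>
    intro x y
    simp only [act, LinearMap.comp_apply]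
    rw [hsr, ih]

end Pool.MP_ad5d82_an.Eig
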