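/-
MP_ad5d82_an, part A4, module EG2: finitely many roots, integer coordinates (helper5).
-/
import Pool.Agent.Lib.MP_ad5d82_an.h24.Eig.EG1

set_option autoImplicit false

namespace Pool.MP_ad5d82_an.Eig

open Matrix

variable {ι : Type} [Fintype ι] [DecidableEq ι]

theorem eg2_sr_int {K : Matrix ι ι ℤ} (j : ι) {v : ι → ℝ} (hv : ∀ i, ∃ n : ℤ, v i = n) :
    ∀ i, ∃ n : ℤ, sr K j v i = n := by
  choose w hw using hv
  intro i
  rw [eg1_sr, eg1_pj_apply]
  refine ⟨w i - (∑ k, K k j * w k) * (Pi.single j 1 : ι → ℤ) i, ?_⟩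
  simp only [Pi.sub_apply, Pi.smul_apply, smul_eq_mul, hw]
  by_cases h : i = j
  · subst h
    simp
  · simp [Pi.single_eq_of_ne h]

/-- roots have integer coordinates -/
theorem root_int {K : Matrix ι ι ℤ} {v : ι → ℝ} (hv : IsRoot K v) : ∀ i, ∃ n : ℤ, v i = n := by
  obtain ⟨L, a, rfl⟩ := hv
  induction L with
  | nil =>
    intro i
    refine ⟨(Pi.single a 1 : ι → ℤ) i, ?_⟩
    simp only [act, LinearMap.id_apply]
    by_cases h : i = a
    · subst h
      simp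
    · simp [Pi.single_eq_of_ne h]
  | cons j L ih =>
    simp only [act, LinearMap.comp_apply]
    exact eg2_sr_int j ih

theorem finite_roots {K : Matrix ι ι ℤ} (hK : IsFT K) : {v | IsRoot K v}.Finite := by
  obtain ⟨d, hd, -, -, -, hsingle, -, hact, c, hc, hcoer⟩ := exists_form hK
  obtain ⟨C, hC⟩ : ∃ C : ℝ, ∀ a, 2 / d a ≤ C :=
    ⟨∑ a, 2 / d a, fun a => Finset.single_le_sum (f := fun a => 2 / d a)
      (fun b _ => (div_pos two_pos (hd b)).le) (Finset.mem_univ a)⟩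
  obtain ⟨N, hN⟩ := exists_nat_ge (C / c)
  have hfin : {v : ι → ℝ | ∀ i, v i ∈ (fun n : ℤ => (n : ℝ)) '' Set.Icc (-(N : ℤ)) N}.Finite :=
    Set.Finite.pi' fun _ => (Set.finite_Icc _ _).image _
  refine hfin.subset fun v hv i => ?_
  obtain ⟨n, hn⟩ := root_int hv i
  refine ⟨n, ?_, hn.symm⟩
  obtain ⟨L, a, rfl⟩ := hv
  have h1 := hcoer (act K L (Pi.single a 1)) i
  rw [hact, hsingle, eg1_pj_single, hK.diag, hn] at h1
  have h2 : c * (n : ℝ) ^ 2 ≤ C := by
    refine h1.trans ?_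
    have := hC a
    exact_mod_cast this
  have h3 : (n : ℝ) ^ 2 ≤ N := by
    refine le_trans ?_ hN
    rw [le_div_iff₀ hc]
    linarith
  have h4 : n ^ 2 ≤ (N : ℤ) := by exact_mod_cast h3
  rw [Set.mem_Icc]
  constructor
  · nlinarith [sq_nonneg (n + 1)]
  · nlinarith [sq_nonneg (n - 1)]

end Pool.MP_ad5d82_an.Eig
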