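/-
MP_ad5d82_an, part A4, module EG3: the reflection group is finite (helper5).
-/
import Pool.Agent.Lib.MP_ad5d82_an.h24.Eig.EG2

set_option autoImplicit false

namespace Pool.MP_ad5d82_an.Eig

open Matrix

variable {ι : Type} [Fintype ι] [DecidableEq ι]

theorem finite_act {K : Matrix ι ι ℤ} (hK : IsFT K) : (Set.range (act K)).Finite := by
  have hfin : {w : ι → (ι → ℝ) | ∀ a, w a ∈ {v | IsRoot K v}}.Finite :=
    Set.Finite.pi' fun _ => finite_roots hK
  refine Set.Finite.of_finite_image (f := fun (g : (ι → ℝ) →ₗ[ℝ] (ι → ℝ)) =>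
    fun a : ι => g (Pi.single a 1)) (hfin.subset ?_) ?_
  · rintro _ ⟨_, ⟨L, rfl⟩, rfl⟩ a
    exact ⟨L, a, rfl⟩
  · intro g _ g' _ h
    refine LinearMap.pi_ext fun i x => ?_
    have h1 : g (Pi.single i 1) = g' (Pi.single i 1) := congrFun h i
    have h2 : (Pi.single i x : ι → ℝ) = x • (Pi.single i 1 : ι → ℝ) := by
      funext k
      by_cases hk : k = i
      · subst hk; simp
      · simp [Pi.single_eq_of_ne hk]
    rw [h2, map_smul, map_smul, h1]

end Pool.MP_ad5d82_an.Eig
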