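/-
MP_ad5d82_an, part A4, module EG4: rank two confluence (helper5).
-/
import Pool.Agent.Lib.MP_ad5d82_an.h24.EigDefs

set_option autoImplicit false

namespace Pool.MP_ad5d82_an.Eig

open Matrix

variable {ι : Type} [Fintype ι] [DecidableEq ι]

/-- one reduction step -/
def Step (K : Matrix ι ι ℤ) (x y : ι → ℝ) : Prop := ∃ j, pj K j x < 0 ∧ y = sr K j x

theorem eg4_pj_single (K : Matrix ι ι ℤ) (i j : ι) :
    pj K j (Pi.single i 1) = (K i j : ℝ) := by
  simp only [pj, LinearMap.coe_sum, Finset.sum_apply, LinearMap.smul_apply, LinearMap.proj_apply,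
    smul_eq_mul]
  rw [Finset.sum_eq_single i]
  · simp
  · intro k _ hk
    simp [Pi.single_eq_of_ne hk]
  · intro h
    exact absurd (Finset.mem_univ i) h

theorem eg4_sr (K : Matrix ι ι ℤ) (j : ι) (x : ι → ℝ) :
    sr K j x = x - pj K j x • Pi.single j 1 := by
  simp [sr]

omit [Fintype ι] [DecidableEq ι] in
/-- symmetry and rank two positivity -/
theorem eg4_pair {K : Matrix ι ι ℤ} (hK : IsFT K) {i j : ι} (hij : i ≠ j) :
    (K i j = 0 ↔ K j i = 0) ∧ K i j * K j i < 4 := by
  obtain ⟨d, hd, hpd⟩ := hK.pd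
  have hsym : d i * (K i j : ℝ) = d j * (K j i : ℝ) := by
    have h := hpd.isHermitian
    have h2 := congrFun (congrFun h j) i
    simp only [Matrix.conjTranspose_apply, Matrix.of_apply, star_trivial] at h2
    exact h2
  constructor
  · constructor
    · intro h
      rw [h, Int.cast_zero, mul_zero] at hsym
      have : (K j i : ℝ) = 0 := by
        rcases mul_eq_zero.mp hsym.symm with h1 | h1
        · exact absurd h1 (hd j).ne'
        · exact h1
      exact_mod_cast this
    · intro h
      rw [h, Int.cast_zero, mul_zero] at hsym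
      have : (K i j : ℝ) = 0 := by
        rcases mul_eq_zero.mp hsym with h1 | h1
        · exact absurd h1 (hd i).ne'
        · exact h1
      exact_mod_cast this
  · have hinj : Function.Injective (![i, j] : Fin 2 → ι) := by
      intro a b hab
      fin_cases a <;> fin_cases b <;> simp at hab ⊢
      · exact hij hab
      · exact hij hab.symm
    have hdet := (hpd.submatrix hinj).det_pos
    rw [Matrix.det_fin_two] at hdet
    simp only [Matrix.submatrix_apply, Matrix.of_apply, Matrix.cons_val_zero,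
      Matrix.cons_val_one] at hdet
    rw [hK.diag i, hK.diag j] at hdet
    have h3 : (d i * d j) * ((K i j : ℝ) * (K j i : ℝ)) < (d i * d j) * 4 := by
      push_cast at hdet
      linarith
    have h4 := lt_of_mul_lt_mul_left h3 (mul_pos (hd i) (hd j)).le
    exact_mod_cast h4

theorem eg4_cases (u v : ℤ) (hu : u ≤ 0) (hv : v ≤ 0) (h0 : u = 0 ↔ v = 0) (h4 : u * v < 4) :
    (u = 0 ∧ v = 0) ∨ (u = -1 ∧ v = -1) ∨ (u = -1 ∧ v = -2) ∨
      (u = -2 ∧ v = -1) ∨ (u = -1 ∧ v = -3) ∨ (u = -3 ∧ v = -1) := by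
  by_cases hz : u = 0
  · exact Or.inl ⟨hz, h0.mp hz⟩
  · have hz' : v ≠ 0 := fun h => hz (h0.mpr h)
    have h1 : u ≤ -1 := by omega
    have h2 : v ≤ -1 := by omega
    have h3 : -3 ≤ u := by nlinarith
    have h5 : -3 ≤ v := by nlinarith
    clear h0 hz hz' hu hv
    interval_cases u <;> interval_cases v <;> omega

theorem confluence {K : Matrix ι ι ℤ} (hK : IsFT K) (x : ι → ℝ) (i j : ι)
    (hi : pj K i x < 0) (hj : pj K j x < 0) :
    ∃ z, Relation.ReflTransGen (Step K) (sr K i x) z ∧
      Relation.ReflTransGen (Step K) (sr K j x) z := by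
  by_cases hij : i = j
  · subst hij
    exact ⟨_, Relation.ReflTransGen.refl, Relation.ReflTransGen.refl⟩
  obtain ⟨h0, h4⟩ := eg4_pair hK hij
  have hm := hK.off i j hij
  have hn := hK.off j i (Ne.symm hij)
  obtain ⟨a, ha⟩ : ∃ a, a = -pj K i x := ⟨_, rfl⟩
  obtain ⟨b, hb⟩ : ∃ b, b = -pj K j x := ⟨_, rfl⟩
  have ha0 : 0 < a := by rw [ha]; linarith
  have hb0 : 0 < b := by rw [hb]; linarith
  set Y : ℝ → ℝ → (ι → ℝ) := fun A B => x + A • Pi.single i 1 + B • Pi.single j 1 with hY
  have hpi : ∀ A B, pj K i (Y A B) = -a + 2 * A + (K j i : ℝ) * B := by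
    intro A B
    simp only [hY, map_add, map_smul, eg4_pj_single, smul_eq_mul, hK.diag i, ha]
    push_cast
    ring
  have hpj : ∀ A B, pj K j (Y A B) = -b + (K i j : ℝ) * A + 2 * B := by
    intro A B
    simp only [hY, map_add, map_smul, eg4_pj_single, smul_eq_mul, hK.diag j, hb]
    push_cast
    ring
  have hsi : ∀ A B, sr K i (Y A B) = Y (a - A - (K j i : ℝ) * B) B := by
    intro A B
    rw [eg4_sr, hpi]
    simp only [hY]
    module
  have hsj : ∀ A B, sr K j (Y A B) = Y A (b - (K i j : ℝ) * A - B) := by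
    intro A B
    rw [eg4_sr, hpj]
    simp only [hY]
    module
  have hx : x = Y 0 0 := by simp [hY]
  have stepi : ∀ A B A', -a + 2 * A + (K j i : ℝ) * B < 0 → A' = a - A - (K j i : ℝ) * B →
      Step K (Y A B) (Y A' B) := by
    intro A B A' h1 h2
    exact ⟨i, by rw [hpi]; exact h1, by rw [hsi, h2]⟩
  have stepj : ∀ A B B', -b + (K i j : ℝ) * A + 2 * B < 0 → B' = b - (K i j : ℝ) * A - B →
      Step K (Y A B) (Y A B') := by
    intro A B B' h1 h2
    exact ⟨j, by rw [hpj]; exact h1, by rw [hsj, h2]⟩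
  have e1 : sr K i x = Y a 0 := by
    rw [hx, hsi]; simp
  have e2 : sr K j x = Y 0 b := by
    rw [hx, hsj]; simp
  rw [e1, e2]
  have hcases : (K i j = 0 ∧ K j i = 0) ∨ (K i j = -1 ∧ K j i = -1) ∨ (K i j = -1 ∧ K j i = -2) ∨
      (K i j = -2 ∧ K j i = -1) ∨ (K i j = -1 ∧ K j i = -3) ∨ (K i j = -3 ∧ K j i = -1) :=
    eg4_cases _ _ hm hn h0 h4
  rcases hcases with ⟨h1, h2⟩ | ⟨h1, h2⟩ | ⟨h1, h2⟩ | ⟨h1, h2⟩ | ⟨h1, h2⟩ | ⟨h1, h2⟩
  · rw [h1] at stepj; rw [h2] at stepi
    push_cast at stepi stepj
    refine ⟨Y a b, ?_, ?_⟩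
    · exact .single (stepj _ _ _ (by linarith) (by ring))
    · exact .single (stepi _ _ _ (by linarith) (by ring))
  · rw [h1] at stepj; rw [h2] at stepi
    push_cast at stepi stepj
    refine ⟨Y (a + b) (a + b), ?_, ?_⟩
    · exact .head (stepj _ _ (a + b) (by linarith) (by ring))
        (.single (stepi _ _ _ (by linarith) (by ring)))
    · exact .head (stepi _ _ (a + b) (by linarith) (by ring))
        (.single (stepj _ _ _ (by linarith) (by ring)))
  · rw [h1] at stepj; rw [h2] at stepi
    push_cast at stepi stepj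
    refine ⟨Y (2 * a + 2 * b) (a + 2 * b), ?_, ?_⟩
    · exact .head (stepj _ _ (a + b) (by linarith) (by ring))
        (.head (stepi _ _ (2 * a + 2 * b) (by linarith) (by ring))
        (.single (stepj _ _ _ (by linarith) (by ring))))
    · exact .head (stepi _ _ (a + 2 * b) (by linarith) (by ring))
        (.head (stepj _ _ (a + 2 * b) (by linarith) (by ring))
        (.single (stepi _ _ _ (by linarith) (by ring))))
  · rw [h1] at stepj; rw [h2] at stepi
    push_cast at stepi stepj
    refine ⟨Y (2 * a + b) (2 * a + 2 * b), ?_, ?_⟩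
    · exact .head (stepj _ _ (2 * a + b) (by linarith) (by ring))
        (.head (stepi _ _ (2 * a + b) (by linarith) (by ring))
        (.single (stepj _ _ _ (by linarith) (by ring))))
    · exact .head (stepi _ _ (a + b) (by linarith) (by ring))
        (.head (stepj _ _ (2 * a + 2 * b) (by linarith) (by ring))
        (.single (stepi _ _ _ (by linarith) (by ring))))
  · rw [h1] at stepj; rw [h2] at stepi
    push_cast at stepi stepj
    refine ⟨Y (4 * a + 6 * b) (2 * a + 4 * b), ?_, ?_⟩
    · exact .head (stepj _ _ (a + b) (by linarith) (by ring))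
        (.head (stepi _ _ (3 * a + 3 * b) (by linarith) (by ring))
        (.head (stepj _ _ (2 * a + 3 * b) (by linarith) (by ring))
        (.head (stepi _ _ (4 * a + 6 * b) (by linarith) (by ring))
        (.single (stepj _ _ _ (by linarith) (by ring))))))
    · exact .head (stepi _ _ (a + 3 * b) (by linarith) (by ring))
        (.head (stepj _ _ (a + 3 * b) (by linarith) (by ring))
        (.head (stepi _ _ (3 * a + 6 * b) (by linarith) (by ring))
        (.head (stepj _ _ (2 * a + 4 * b) (by linarith) (by ring))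
        (.single (stepi _ _ _ (by linarith) (by ring))))))
  · rw [h1] at stepj; rw [h2] at stepi
    push_cast at stepi stepj
    refine ⟨Y (4 * a + 2 * b) (6 * a + 4 * b), ?_, ?_⟩
    · exact .head (stepj _ _ (3 * a + b) (by linarith) (by ring))
        (.head (stepi _ _ (3 * a + b) (by linarith) (by ring))
        (.head (stepj _ _ (6 * a + 3 * b) (by linarith) (by ring))
        (.head (stepi _ _ (4 * a + 2 * b) (by linarith) (by ring))
        (.single (stepj _ _ _ (by linarith) (by ring))))))
    · exact .head (stepi _ _ (a + b) (by linarith) (by ring))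
        (.head (stepj _ _ (3 * a + 3 * b) (by linarith) (by ring))
        (.head (stepi _ _ (3 * a + 2 * b) (by linarith) (by ring))
        (.head (stepj _ _ (6 * a + 4 * b) (by linarith) (by ring))
        (.single (stepi _ _ _ (by linarith) (by ring))))))

end Pool.MP_ad5d82_an.Eig
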