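/-
MP_ad5d82_an, part A4, module EG5: uniqueness of the dominant vector in an orbit (helper5).
-/
import Pool.Agent.Lib.MP_ad5d82_an.h24.Eig.EG3
import Pool.Agent.Lib.MP_ad5d82_an.h24.Eig.EG4

set_option autoImplicit false

namespace Pool.MP_ad5d82_an.Eig

open Matrix

variable {ι : Type} [Fintype ι] [DecidableEq ι]

theorem eg5_sum_sr (K : Matrix ι ι ℤ) (j : ι) (x : ι → ℝ) :
    ∑ i, sr K j x i = ∑ i, x i - pj K j x := by
  rw [eg1_sr]
  simp only [Pi.sub_apply, Pi.smul_apply, smul_eq_mul, Finset.sum_sub_distrib]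
  congr 1
  rw [← Finset.mul_sum, Finset.sum_pi_single']
  simp

theorem eg5_dom_no_step {K : Matrix ι ι ℤ} {x y : ι → ℝ} (hx : Dom K x)
    (h : Relation.ReflTransGen (Step K) x y) : x = y := by
  rcases Relation.ReflTransGen.cases_head h with h | ⟨z, ⟨j, hj, -⟩, -⟩
  · exact h
  · exact absurd (hx j) (not_le.mpr hj)

/-- uniqueness of the dominant vector in an orbit -/
theorem dom_unique {K : Matrix ι ι ℤ} (hK : IsFT K) (x : ι → ℝ) (L : List ι)
    (hx : Dom K x) (hy : Dom K (act K L x)) : act K L x = x := by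
  set O : Set (ι → ℝ) := Set.range fun L : List ι => act K L x with hO
  have hOfin : O.Finite := by
    have h := (finite_act hK).image (fun g : (ι → ℝ) →ₗ[ℝ] (ι → ℝ) => g x)
    refine h.subset ?_
    rintro _ ⟨L, rfl⟩
    exact ⟨act K L, ⟨L, rfl⟩, rfl⟩
  have hOsr : ∀ y ∈ O, ∀ j, sr K j y ∈ O := by
    rintro _ ⟨L, rfl⟩ j
    exact ⟨j :: L, rfl⟩
  have : Finite O := hOfin
  have hwf : WellFounded (fun z y : O => ∑ i, (y : ι → ℝ) i < ∑ i, (z : ι → ℝ) i) := by
    have : IsTrans O (fun z y : O => ∑ i, (y : ι → ℝ) i < ∑ i, (z : ι → ℝ) i) :=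
      ⟨fun a b c h1 h2 => lt_trans h2 h1⟩
    have : Std.Irrefl (fun z y : O => ∑ i, (y : ι → ℝ) i < ∑ i, (z : ι → ℝ) i) :=
      ⟨fun a h => lt_irrefl _ h⟩
    exact Finite.wellFounded_of_trans_of_irrefl _
  -- existence of normal forms
  have hex : ∀ y : O, ∃ w, Relation.ReflTransGen (Step K) y w ∧ Dom K w := by
    intro y
    induction y using hwf.induction with | _ y ih
    by_cases hd : Dom K (y : ι → ℝ)
    · exact ⟨y, .refl, hd⟩
    · rw [Dom, not_forall] at hd
      obtain ⟨j, hj⟩ := hd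
      rw [not_le] at hj
      have h1 := ih ⟨sr K j y, hOsr _ y.2 j⟩ (by
        show ∑ i, (y : ι → ℝ) i < ∑ i, sr K j y i
        rw [eg5_sum_sr]; linarith)
      obtain ⟨w, hw, hwd⟩ := h1
      exact ⟨w, .head ⟨j, hj, rfl⟩ hw, hwd⟩
  have hOstep : ∀ y ∈ O, ∀ z, Relation.ReflTransGen (Step K) y z → z ∈ O := by
    intro y hyO z h
    induction h with
    | refl => exact hyO
    | tail _ hs ih =>
      obtain ⟨j, -, rfl⟩ := hs
      exact hOsr _ ih j
  -- uniqueness
  have huniq : ∀ y : O, ∀ z1 z2, Relation.ReflTransGen (Step K) y z1 →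
      Relation.ReflTransGen (Step K) y z2 → Dom K z1 → Dom K z2 → z1 = z2 := by
    intro y
    induction y using hwf.induction with | _ y ih
    intro z1 z2 h1 h2 hd1 hd2
    rcases Relation.ReflTransGen.cases_head h1 with h1' | ⟨y1, ⟨i, hi, rfl⟩, h1'⟩
    · rw [h1'] at h2
      exact eg5_dom_no_step hd1 h2
    rcases Relation.ReflTransGen.cases_head h2 with h2' | ⟨y2, ⟨j, hj, rfl⟩, h2'⟩
    · rw [h2'] at h1
      exact (eg5_dom_no_step hd2 h1).symm
    obtain ⟨z, hz1, hz2⟩ := confluence hK (y : ι → ℝ) i j hi hj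
    have hyi : sr K i y ∈ O := hOsr _ y.2 i
    have hyj : sr K j y ∈ O := hOsr _ y.2 j
    obtain ⟨w, hw, hwd⟩ := hex ⟨z, hOstep _ hyi _ hz1⟩
    have e1 : z1 = w := ih ⟨_, hyi⟩ (by
        show ∑ i, (y : ι → ℝ) i < ∑ k, sr K i y k
        rw [eg5_sum_sr]; linarith) z1 w h1' (hz1.trans hw) hd1 hwd
    have e2 : z2 = w := ih ⟨_, hyj⟩ (by
        show ∑ i, (y : ι → ℝ) i < ∑ k, sr K j y k
        rw [eg5_sum_sr]; linarith) z2 w h2' (hz2.trans hw) hd2 hwd
    rw [e1, e2]
  -- all vectors of the orbit reduce to `x`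
  have hall : ∀ L : List ι, Relation.ReflTransGen (Step K) (act K L x) x := by
    intro L
    induction L with
    | nil => simpa [act] using Relation.ReflTransGen.refl
    | cons j L ih =>
      have hmem : act K L x ∈ O := ⟨L, rfl⟩
      simp only [act, LinearMap.comp_apply]
      rcases lt_trichotomy (pj K j (act K L x)) 0 with h | h | h
      · obtain ⟨w, hw, hwd⟩ := hex ⟨_, hOsr _ hmem j⟩
        have e := huniq ⟨_, hmem⟩ w x (.head ⟨j, h, rfl⟩ hw) ih hwd hx
        rw [e] at hw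
        exact hw
      · have e : sr K j (act K L x) = act K L x := by
          rw [eg1_sr, h, zero_smul, sub_zero]
        rw [e]; exact ih
      · refine .head ⟨j, ?_, (sr_sr hK j _).symm⟩ ih
        rw [eg1_sr, map_sub, map_smul, eg1_pj_single, hK.diag]
        push_cast
        rw [smul_eq_mul]
        linarith
  exact eg5_dom_no_step hy (hall L)

end Pool.MP_ad5d82_an.Eig
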