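/-
MP_ad5d82_an, part A4, module EG6: sign coherence of roots (helper5).
-/
import Pool.Agent.Lib.MP_ad5d82_an.h24.Eig.EG5

set_option autoImplicit false

namespace Pool.MP_ad5d82_an.Eig

open Matrix

variable {ι : Type} [Fintype ι] [DecidableEq ι]

omit [DecidableEq ι] in
theorem eg6_form_eq (K : Matrix ι ι ℤ) (d x v : ι → ℝ) :
    form K d x v = ∑ j, v j * (pj K j x / d j) := by
  rw [form, Finset.sum_comm]
  refine Finset.sum_congr rfl fun j _ => ?_
  rw [eg1_pj_apply, Finset.sum_div, Finset.mul_sum]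
  refine Finset.sum_congr rfl fun i _ => ?_
  rw [div_eq_mul_inv]; ring

/-- prescribed pairings with all simple coroots -/
theorem eg6_surj {K : Matrix ι ι ℤ} (hK : IsFT K) (t : ι → ℝ) :
    ∃ x : ι → ℝ, ∀ j, pj K j x = t j := by
  obtain ⟨d, hd, -, -, hpos, -, -, -, -⟩ := exists_form hK
  have hinj : Function.Injective (LinearMap.pi fun j => pj K j : (ι → ℝ) →ₗ[ℝ] (ι → ℝ)) := by
    rw [← LinearMap.ker_eq_bot, LinearMap.ker_eq_bot']
    intro x hx
    by_contra hne
    have h1 := hpos x hne
    rw [eg6_form_eq] at h1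
    have h2 : ∀ j, pj K j x = 0 := fun j => congrFun hx j
    simp [h2] at h1
  obtain ⟨x, hx⟩ := (LinearMap.injective_iff_surjective.mp hinj) t
  exact ⟨x, fun j => congrFun hx j⟩

theorem sign_coherent {K : Matrix ι ι ℤ} (hK : IsFT K) {v : ι → ℝ} (hv : IsRoot K v) :
    (∀ i, 0 ≤ v i) ∨ (∀ i, v i ≤ 0) := by
  by_contra hcon
  rw [not_or, not_forall, not_forall] at hcon
  obtain ⟨⟨q, hq⟩, ⟨p, hp⟩⟩ := hcon
  rw [not_le] at hq hp
  obtain ⟨d, hd, -, hcomm, hpos, hsingle, -, hact, -⟩ := exists_form hK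
  obtain ⟨L, a, hva⟩ := hv
  -- the weights `t`
  obtain ⟨t, ht0, htv⟩ : ∃ t : ι → ℝ, (∀ i, 0 < t i) ∧ ∑ i, v i * t i = 0 := by
    obtain ⟨r, hr, hS⟩ : ∃ r, v r ≠ 0 ∧ 0 ≤ -(∑ i, v i) / v r := by
      rcases le_total 0 (∑ i, v i) with h | h
      · exact ⟨q, hq.ne, div_nonneg_of_nonpos (by linarith) hq.le⟩
      · exact ⟨p, hp.ne', div_nonneg (by linarith) hp.le⟩
    refine ⟨fun i => 1 + (-(∑ i, v i) / v r) * (Pi.single r 1 : ι → ℝ) i, fun i => ?_, ?_⟩
    · have : 0 ≤ (Pi.single r 1 : ι → ℝ) i := by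
        by_cases h : i = r
        · subst h; simp
        · simp [Pi.single_eq_of_ne h]
      have h2 := mul_nonneg hS this
      linarith
    · have h1 : ∀ i, v i * (1 + (-(∑ i, v i) / v r) * (Pi.single r 1 : ι → ℝ) i) =
          v i + (-(∑ i, v i) / v r) * (v i * (Pi.single r 1 : ι → ℝ) i) := fun i => by ring
      simp only [h1, Finset.sum_add_distrib]
      rw [← Finset.mul_sum, Finset.sum_eq_single r (f := fun i => v i * (Pi.single r 1 : ι → ℝ) i)]
      · rw [Pi.single_eq_same, mul_one, div_mul_cancel₀ _ hr]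
        ring
      · intro k _ hk
        simp [Pi.single_eq_of_ne hk]
      · intro h
        exact absurd (Finset.mem_univ r) h
  obtain ⟨x0, hx0⟩ := eg6_surj hK (fun i => d i * t i)
  have hx0v : form K d x0 v = 0 := by
    rw [eg6_form_eq]
    rw [← htv]
    refine Finset.sum_congr rfl fun j _ => ?_
    rw [hx0 j]
    have := (hd j).ne'
    field_simp
  -- small `η`
  obtain ⟨η, hη0, hη⟩ : ∃ η : ℝ, 0 < η ∧ ∀ j, η * |pj K j v| < d j * t j := by
    have h1 : ∀ j, ∀ᶠ η : ℝ in nhdsWithin 0 (Set.Ioi 0), η * |pj K j v| < d j * t j := by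
      intro j
      have h2 : Filter.Tendsto (fun η : ℝ => η * |pj K j v|) (nhdsWithin 0 (Set.Ioi 0))
          (nhds (0 * |pj K j v|)) :=
        (Filter.Tendsto.mono_left Filter.tendsto_id nhdsWithin_le_nhds).mul_const _
      rw [zero_mul] at h2
      exact h2.eventually_lt_const (mul_pos (hd j) (ht0 j))
    have h3 : ∀ᶠ η : ℝ in nhdsWithin 0 (Set.Ioi 0), ∀ j, η * |pj K j v| < d j * t j :=
      Filter.eventually_all.mpr h1
    obtain ⟨η, h4, h5⟩ := (h3.and self_mem_nhdsWithin).exists
    exact ⟨η, h5, h4⟩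
  have hdom1 : Dom K (x0 + η • v) := by
    intro j
    rw [map_add, map_smul, hx0, smul_eq_mul]
    have h1 := hη j
    have h2 := neg_abs_le (pj K j v)
    nlinarith
  have hdom2 : Dom K (x0 - η • v) := by
    intro j
    rw [map_sub, map_smul, hx0, smul_eq_mul]
    have h1 := hη j
    have h2 := le_abs_self (pj K j v)
    nlinarith
  -- the reflection in `v`
  have hrefl : ∀ y, act K (L ++ (a :: L.reverse)) y = y - (d a * form K d y v) • v := by
    intro y
    rw [act_append]
    simp only [act, LinearMap.comp_apply]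
    have h1 : act K L (act K L.reverse y) = y := by
      have := act_reverse hK L.reverse y
      rwa [List.reverse_reverse] at this
    rw [eg1_sr, map_sub, map_smul, h1, ← hva]
    congr 2
    have h2 : form K d (act K L.reverse y) (Pi.single a 1) = form K d y v := by
      rw [← hact L, h1, ← hva]
    rw [← h2, hsingle]
    have := (hd a).ne'
    field_simp
  have hvv : d a * form K d v v = 2 := by
    have h1 : form K d v v = form K d (Pi.single a 1) (Pi.single a 1) := by
      rw [hva, hact]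
    rw [h1, hsingle, eg1_pj_single, hK.diag]
    push_cast
    have := (hd a).ne'
    field_simp
  have hkey : act K (L ++ (a :: L.reverse)) (x0 + η • v) = x0 - η • v := by
    rw [hrefl, eg1_form_add_left, eg1_form_smul_left, hx0v, zero_add]
    have : d a * (η * form K d v v) = 2 * η := by
      calc d a * (η * form K d v v) = η * (d a * form K d v v) := by ring
        _ = 2 * η := by rw [hvv]; ring
    rw [this]
    module
  have h := dom_unique hK (x0 + η • v) (L ++ (a :: L.reverse)) hdom1 (by rw [hkey]; exact hdom2)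
  rw [hkey] at h
  have h2 := congrFun h p
  simp only [Pi.sub_apply, Pi.add_apply, Pi.smul_apply, smul_eq_mul] at h2
  have h3 : 0 < η * v p := mul_pos hη0 hp
  linarith

end Pool.MP_ad5d82_an.Eig
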