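/-
MP_ad5d82_an, part A4, module EG7: the root system and Geck's matrices (helper5).
-/
import Pool.Agent.Lib.MP_ad5d82_an.h24.Eig.EG6

set_option autoImplicit false

namespace Pool.MP_ad5d82_an.Eig

open Matrix Module

variable {ι : Type} [Fintype ι] [DecidableEq ι]

/-- symmetrising weights -/
noncomputable def dd {K : Matrix ι ι ℤ} (hK : IsFT K) : ι → ℝ := (exists_form hK).choose

theorem dd_spec {K : Matrix ι ι ℤ} (hK : IsFT K) :
    (∀ a, 0 < dd hK a) ∧ (∀ a b, dd hK a * (K a b : ℝ) = dd hK b * (K b a : ℝ)) ∧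
      (∀ x y, form K (dd hK) x y = form K (dd hK) y x) ∧
      (∀ x, x ≠ 0 → 0 < form K (dd hK) x x) ∧
      (∀ j x, form K (dd hK) x (Pi.single j 1) = pj K j x / dd hK j) ∧
      (∀ j x y, form K (dd hK) (sr K j x) (sr K j y) = form K (dd hK) x y) ∧
      (∀ L x y, form K (dd hK) (act K L x) (act K L y) = form K (dd hK) x y) ∧
      (∃ c : ℝ, 0 < c ∧ ∀ x i, c * x i ^ 2 ≤ form K (dd hK) x x) :=
  (exists_form hK).choose_spec

/-- the coroot of a vector -/
noncomputable def cor {K : Matrix ι ι ℤ} (hK : IsFT K) (v : ι → ℝ) : Dual ℝ (ι → ℝ) :=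
  (2 / form K (dd hK) v v) • ∑ j, (v j / dd hK j) • pj K j

theorem cor_apply {K : Matrix ι ι ℤ} (hK : IsFT K) (v y : ι → ℝ) :
    cor hK v y = 2 / form K (dd hK) v v * form K (dd hK) y v := by
  rw [cor, LinearMap.smul_apply, LinearMap.sum_apply, smul_eq_mul, eg6_form_eq K (dd hK) y v]
  congr 1
  refine Finset.sum_congr rfl fun j _ => ?_
  rw [LinearMap.smul_apply, smul_eq_mul]
  ring

theorem eg7_act_act_reverse {K : Matrix ι ι ℤ} (hK : IsFT K) (L : List ι) (y : ι → ℝ) :
    act K L (act K L.reverse y) = y := by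
  have := act_reverse hK L.reverse y
  rwa [List.reverse_reverse] at this

theorem root_ne_zero {K : Matrix ι ι ℤ} (hK : IsFT K) {v : ι → ℝ} (hv : IsRoot K v) : v ≠ 0 := by
  obtain ⟨L, a, rfl⟩ := hv
  intro h
  have h1 := act_reverse hK L (Pi.single a 1)
  rw [h, map_zero] at h1
  have h2 := congrFun h1 a
  simp at h2

theorem form_simple {K : Matrix ι ι ℤ} (hK : IsFT K) (a : ι) :
    form K (dd hK) (Pi.single a 1) (Pi.single a 1) = 2 / dd hK a := by
  rw [(dd_spec hK).2.2.2.2.1, eg1_pj_single, hK.diag]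
  push_cast
  rfl

theorem form_root {K : Matrix ι ι ℤ} (hK : IsFT K) (L : List ι) (a : ι) :
    form K (dd hK) (act K L (Pi.single a 1)) (act K L (Pi.single a 1)) = 2 / dd hK a := by
  rw [(dd_spec hK).2.2.2.2.2.2.1, form_simple]

/-- the coroot of `act L e_a` in terms of the simple coroot -/
theorem cor_root {K : Matrix ι ι ℤ} (hK : IsFT K) (L : List ι) (a : ι) (y : ι → ℝ) :
    cor hK (act K L (Pi.single a 1)) y = pj K a (act K L.reverse y) := by
  have hd := (dd_spec hK).1 a
  rw [cor_apply, form_root]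
  have h1 : form K (dd hK) y (act K L (Pi.single a 1)) =
      form K (dd hK) (act K L.reverse y) (Pi.single a 1) := by
    rw [← (dd_spec hK).2.2.2.2.2.2.1 L (act K L.reverse y) (Pi.single a 1),
      eg7_act_act_reverse hK]
  rw [h1, (dd_spec hK).2.2.2.2.1]
  field_simp

theorem cor_simple {K : Matrix ι ι ℤ} (hK : IsFT K) (a : ι) (y : ι → ℝ) :
    cor hK (Pi.single a 1) y = pj K a y := by
  have := cor_root hK [] a y
  simpa [act] using this

/-- reflection in a root -/
theorem refl_root {K : Matrix ι ι ℤ} (hK : IsFT K) (L : List ι) (a : ι) (y : ι → ℝ) :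
    act K (L ++ (a :: L.reverse)) y =
      y - cor hK (act K L (Pi.single a 1)) y • act K L (Pi.single a 1) := by
  rw [act_append]
  simp only [act, LinearMap.comp_apply]
  rw [eg1_sr, map_sub, map_smul, eg7_act_act_reverse hK, cor_root]

theorem refl_isRoot {K : Matrix ι ι ℤ} (hK : IsFT K) {v w : ι → ℝ} (hv : IsRoot K v)
    (hw : IsRoot K w) : IsRoot K (w - cor hK v w • v) := by
  obtain ⟨L, a, rfl⟩ := hv
  obtain ⟨M, b, rfl⟩ := hw
  refine ⟨(L ++ (a :: L.reverse)) ++ M, b, ?_⟩
  rw [act_append, refl_root hK]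

theorem cor_self {K : Matrix ι ι ℤ} (hK : IsFT K) {v : ι → ℝ} (hv : IsRoot K v) :
    cor hK v v = 2 := by
  rw [cor_apply]
  have := ((dd_spec hK).2.2.2.1 v (root_ne_zero hK hv)).ne'
  field_simp

theorem act_isRoot {K : Matrix ι ι ℤ} (L : List ι) {v : ι → ℝ} (hv : IsRoot K v) :
    IsRoot K (act K L v) := by
  obtain ⟨M, b, rfl⟩ := hv
  exact ⟨L ++ M, b, by rw [act_append]⟩

/-- the pairing of roots is integral -/
theorem cor_int {K : Matrix ι ι ℤ} (hK : IsFT K) {v w : ι → ℝ} (hv : IsRoot K v)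
    (hw : IsRoot K w) : ∃ z : ℤ, (z : ℝ) = cor hK v w := by
  obtain ⟨L, a, rfl⟩ := hv
  rw [cor_root, eg1_pj_apply]
  have h1 := root_int (act_isRoot L.reverse hw)
  choose n hn using h1
  refine ⟨∑ i, K i a * n i, ?_⟩
  push_cast
  refine Finset.sum_congr rfl fun i _ => ?_
  rw [hn i]

/-- roots are primitive: proportional roots differ by a sign -/
theorem root_smul {K : Matrix ι ι ℤ} (hK : IsFT K) {v : ι → ℝ} {c : ℝ} (hv : IsRoot K v)
    (hw : IsRoot K (c • v)) : ∃ z : ℤ, (z : ℝ) = c := by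
  obtain ⟨L, a, rfl⟩ := hv
  have h1 := act_isRoot L.reverse hw
  rw [map_smul, act_reverse hK] at h1
  obtain ⟨n, hn⟩ := root_int h1 a
  refine ⟨n, ?_⟩
  rw [← hn]
  simp

theorem root_prop {K : Matrix ι ι ℤ} (hK : IsFT K) {v w : ι → ℝ} {c : ℝ} (hv : IsRoot K v)
    (hw : IsRoot K w) (h : w = c • v) : v = w ∨ v = -w := by
  have hc : c ≠ 0 := by
    rintro rfl
    rw [zero_smul] at h
    exact root_ne_zero hK hw h
  obtain ⟨z, hz⟩ := root_smul hK hv (h ▸ hw)
  have h2 : v = c⁻¹ • w := by rw [h, smul_smul, inv_mul_cancel₀ hc, one_smul]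
  obtain ⟨z', hz'⟩ := root_smul hK hw (h2 ▸ hv)
  have h3 : z * z' = 1 := by
    have : (z : ℝ) * z' = 1 := by rw [hz, hz', mul_inv_cancel₀ hc]
    exact_mod_cast this
  rcases Int.eq_one_or_neg_one_of_mul_eq_one h3 with h4 | h4
  · left
    rw [h4] at hz
    push_cast at hz
    rw [h, ← hz, one_smul]
  · right
    rw [h4] at hz
    push_cast at hz
    rw [h, ← hz, neg_smul, one_smul, neg_neg]

theorem cor_injOn {K : Matrix ι ι ℤ} (hK : IsFT K) {v w : ι → ℝ} (hv : IsRoot K v)
    (hw : IsRoot K w) (h : cor hK v = cor hK w) : v = w := by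
  have hpos := (dd_spec hK).2.2.2.1
  have ha := hpos v (root_ne_zero hK hv)
  have hb := hpos w (root_ne_zero hK hw)
  set a := form K (dd hK) v v with ha'
  set b := form K (dd hK) w w with hb'
  -- `a⁻¹ v - b⁻¹ w` is orthogonal to everything
  have h1 : ∀ y, form K (dd hK) y (a⁻¹ • v + (-b⁻¹) • w) = 0 := by
    intro y
    rw [eg1_form_add_right, eg1_form_smul_right, eg1_form_smul_right]
    have h2 := LinearMap.congr_fun h y
    rw [cor_apply, cor_apply, ← ha', ← hb'] at h2
    have h3 : a⁻¹ * form K (dd hK) y v = b⁻¹ * form K (dd hK) y w := by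
      rw [div_eq_mul_inv, div_eq_mul_inv, mul_assoc, mul_assoc] at h2
      exact mul_left_cancel₀ two_ne_zero h2
    rw [h3]; ring
  have h4 : a⁻¹ • v + (-b⁻¹) • w = 0 := by
    by_contra hne
    exact (hpos _ hne).ne' (h1 _)
  have h5 : w = (b / a) • v := by
    have h6 : a⁻¹ • v = b⁻¹ • w := by
      rw [neg_smul, ← sub_eq_add_neg, sub_eq_zero] at h4
      exact h4
    rw [div_eq_mul_inv, mul_smul, h6, smul_smul, mul_inv_cancel₀ hb.ne', one_smul]
  have h7 : b = (b / a) * ((b / a) * a) := by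
    conv_lhs => rw [hb', h5]
    rw [eg1_form_smul_left, eg1_form_smul_right]
  have h8 : b / a = 1 := by
    rw [div_mul_cancel₀ _ ha.ne'] at h7
    have : b * 1 = b * (b / a) := by rw [mul_one, mul_comm b]; exact h7
    exact (mul_left_cancel₀ hb.ne' this).symm
  rw [h5, h8, one_smul]

/-! ### The root pairing -/

/-- index type of the roots -/
abbrev RIdx (K : Matrix ι ι ℤ) : Type := {v : ι → ℝ // IsRoot K v}

theorem finite_ridx {K : Matrix ι ι ℤ} (hK : IsFT K) : Finite (RIdx K) := finite_roots hK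

/-- the embedding of the roots -/
def rootEmb (K : Matrix ι ι ℤ) : RIdx K ↪ (ι → ℝ) := Function.Embedding.subtype _

/-- the embedding of the coroots -/
noncomputable def corEmb {K : Matrix ι ι ℤ} (hK : IsFT K) : RIdx K ↪ Dual ℝ (ι → ℝ) :=
  ⟨fun v => cor hK v.1, fun v w h => Subtype.ext (cor_injOn hK v.2 w.2 h)⟩

/-- simple roots as indices -/
def simp' (K : Matrix ι ι ℤ) (a : ι) : RIdx K := ⟨Pi.single a 1, [], a, rfl⟩

theorem span_roots (K : Matrix ι ι ℤ) :
    Submodule.span ℝ (Set.range (rootEmb K)) = ⊤ := by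
  rw [eq_top_iff, ← (Pi.basisFun ℝ ι).span_eq]
  refine Submodule.span_mono ?_
  rintro _ ⟨a, rfl⟩
  refine ⟨simp' K a, ?_⟩
  simp [rootEmb, simp', Pi.basisFun_apply]

/-- the root pairing of `K` -/
noncomputable def RP {K : Matrix ι ι ℤ} (hK : IsFT K) :
    RootPairing (RIdx K) ℝ (ι → ℝ) (Dual ℝ (ι → ℝ)) :=
  haveI := finite_ridx hK
  RootPairing.mk'' (Dual.eval ℝ (ι → ℝ)) (rootEmb K) (corEmb hK)
    (fun v => cor_self hK v.2)
    (by
      rintro v _ ⟨w, rfl⟩
      exact ⟨⟨_, refl_isRoot hK v.2 w.2⟩, rfl⟩)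
    (span_roots K)

theorem RP_root {K : Matrix ι ι ℤ} (hK : IsFT K) (v : RIdx K) : (RP hK).root v = v.1 := rfl

theorem RP_coroot {K : Matrix ι ι ℤ} (hK : IsFT K) (v : RIdx K) :
    (RP hK).coroot v = cor hK v.1 := rfl

theorem RP_pairing {K : Matrix ι ι ℤ} (hK : IsFT K) (v w : RIdx K) :
    (RP hK).pairing v w = cor hK w.1 v.1 := rfl

theorem RP_isRootSystem {K : Matrix ι ι ℤ} (hK : IsFT K) : (RP hK).IsRootSystem := by
  have := finite_ridx hK
  exact RootPairing.isRootSystem_mk'' fun v w => by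
    obtain ⟨z, hz⟩ := cor_int hK w.2 v.2
    exact ⟨z, hz⟩

theorem RP_isCrystallographic {K : Matrix ι ι ℤ} (hK : IsFT K) : (RP hK).IsCrystallographic :=
  ⟨fun v w => by
    obtain ⟨z, hz⟩ := cor_int hK w.2 v.2
    exact ⟨z, by rw [RP_pairing, ← hz]; rfl⟩⟩

theorem RP_isReduced {K : Matrix ι ι ℤ} (hK : IsFT K) : (RP hK).IsReduced := by
  constructor
  intro v w h
  rw [RP_root, RP_root] at h ⊢
  rw [LinearIndependent.pair_iff' (root_ne_zero hK v.2)] at h
  push Not at h
  obtain ⟨c, hc⟩ := h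
  exact root_prop hK v.2 w.2 hc.symm

theorem RP_isIrreducible {K : Matrix ι ι ℤ} (hK : IsFT K) (hirr : Irred K) [Nonempty ι] :
    (RP hK).IsIrreducible := by
  refine RootPairing.IsIrreducible.mk' (RP hK) fun q hq hq0 => ?_
  have hq' : ∀ (a : ι) (x : ι → ℝ), x ∈ q → pj K a x ≠ 0 → (Pi.single a 1 : ι → ℝ) ∈ q := by
    intro a x hx hne
    have h1 := hq (simp' K a) hx
    rw [Submodule.mem_comap] at h1
    have h2 : (RP hK).reflection (simp' K a) x = x - pj K a x • (Pi.single a 1 : ι → ℝ) := by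
      rw [RootPairing.reflection_apply, RP_root]
      congr 2
      exact cor_simple hK a x
    have h3 : x - pj K a x • (Pi.single a 1 : ι → ℝ) ∈ q := by
      rw [← h2]; exact h1
    have h4 : pj K a x • (Pi.single a 1 : ι → ℝ) ∈ q := by
      have := q.sub_mem hx h3
      rwa [sub_sub_cancel] at this
    exact (q.smul_mem_iff hne).mp h4
  obtain ⟨x, hx, hx0⟩ := (Submodule.ne_bot_iff q).mp hq0
  have hS : {a : ι | (Pi.single a 1 : ι → ℝ) ∈ q}.Nonempty := by
    by_contra hne
    rw [Set.not_nonempty_iff_eq_empty] at hne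
    have h1 : ∀ a, pj K a x = 0 := by
      intro a
      by_contra h
      have : a ∈ {a : ι | (Pi.single a 1 : ι → ℝ) ∈ q} := hq' a x hx h
      rw [hne] at this
      exact this
    have h2 := (dd_spec hK).2.2.2.1 x hx0
    rw [eg6_form_eq] at h2
    simp [h1] at h2
  have huniv : {a : ι | (Pi.single a 1 : ι → ℝ) ∈ q} = Set.univ := by
    by_contra hne
    obtain ⟨a, ha, b, hb, hab⟩ := hirr _ hS hne
    apply hb
    refine hq' b _ ha ?_
    rw [eg1_pj_single]
    exact_mod_cast hab
  rw [eq_top_iff, ← (Pi.basisFun ℝ ι).span_eq, Submodule.span_le]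
  rintro _ ⟨a, rfl⟩
  rw [Pi.basisFun_apply]
  have : a ∈ {a : ι | (Pi.single a 1 : ι → ℝ) ∈ q} := by rw [huniv]; trivial
  exact this

theorem simp'_injective (K : Matrix ι ι ℤ) : Function.Injective (simp' K) := by
  intro a b h
  have h1 := congrFun (congrArg Subtype.val h) a
  simp only [simp', Pi.single_eq_same] at h1
  by_contra hab
  rw [Pi.single_eq_of_ne hab] at h1
  exact one_ne_zero h1

theorem eg7_closure {K : Matrix ι ι ℤ} {v : ι → ℝ} (hv : ∀ i, ∃ n : ℤ, v i = n)
    (h0 : ∀ i, 0 ≤ v i) :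
    v ∈ AddSubmonoid.closure ((rootEmb K) '' Set.range (simp' K)) := by
  choose n hn using hv
  have h1 : v = ∑ i, (n i).toNat • (Pi.single i 1 : ι → ℝ) := by
    funext k
    rw [Finset.sum_apply, Finset.sum_eq_single k]
    · have hnn : 0 ≤ n k := by
        have := h0 k
        rw [hn k] at this
        exact_mod_cast this
      have h2 : ((n k).toNat : ℝ) = (n k : ℝ) := by
        have : (((n k).toNat : ℤ) : ℝ) = (n k : ℝ) := by rw [Int.toNat_of_nonneg hnn]
        exact_mod_cast this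
      simp [hn k, h2]
    · intro i _ hik
      simp [Pi.single_eq_of_ne (Ne.symm hik)]
    · intro h
      exact absurd (Finset.mem_univ k) h
  rw [h1]
  refine AddSubmonoid.sum_mem _ fun i _ => AddSubmonoid.nsmul_mem _ ?_ _
  exact AddSubmonoid.subset_closure ⟨simp' K i, ⟨i, rfl⟩, rfl⟩

theorem simp'_linearIndepOn {K : Matrix ι ι ℤ} (hK : IsFT K) :
    LinearIndepOn ℝ (RP hK).root (Set.range (simp' K)) := by
  rw [linearIndepOn_range_iff (simp'_injective K)]
  have h1 : (RP hK).root ∘ simp' K = fun a => (Pi.single a 1 : ι → ℝ) := rfl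
  rw [h1]
  have h2 := (Pi.basisFun ℝ ι).linearIndependent
  have h3 : (⇑(Pi.basisFun ℝ ι) : ι → (ι → ℝ)) = fun a => (Pi.single a 1 : ι → ℝ) := by
    funext a
    rw [Pi.basisFun_apply]
  rwa [h3] at h2

theorem RP_mem_or_neg_mem {K : Matrix ι ι ℤ} (hK : IsFT K) (v : RIdx K) :
    (RP hK).root v ∈ AddSubmonoid.closure ((RP hK).root '' Set.range (simp' K)) ∨
      -(RP hK).root v ∈ AddSubmonoid.closure ((RP hK).root '' Set.range (simp' K)) := by
  rcases sign_coherent hK v.2 with h | h
  · left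
    exact eg7_closure (root_int v.2) h
  · right
    refine eg7_closure (fun i => ?_) (fun i => ?_)
    · obtain ⟨n, hn⟩ := root_int v.2 i
      refine ⟨-n, ?_⟩
      have : (-(RP hK).root v) i = -(v.1 i) := rfl
      rw [this, hn]
      push_cast
      rfl
    · have h1 : (-(RP hK).root v) i = -(v.1 i) := rfl
      rw [h1]
      have := h i
      linarith

/-- Geck's matrices: representation of the Serre type relations -/
theorem exists_lie {K : Matrix ι ι ℤ} (hK : IsFT K) (hirr : Irred K) [Nonempty ι] :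
    ∃ (N : Type) (_ : Fintype N) (_ : DecidableEq N) (e f h : ι → Matrix N N ℝ),
      LinearIndependent ℝ h ∧ (∀ i j, h i * h j = h j * h i) ∧
      (∀ i j, h j * e i - e i * h j = (K i j : ℝ) • e i) ∧
      (∀ i j, h j * f i - f i * h j = -(K i j : ℝ) • f i) ∧
      (∀ i, e i * f i - f i * e i = h i) ∧
      (∀ i j, i ≠ j → e i * f j - f j * e i = 0) := by
  classical
  have := finite_ridx hK
  have := RP_isRootSystem hK
  have := RP_isCrystallographic hK
  have := RP_isReduced hK
  have := RP_isIrreducible hK hirr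
  let _ : Fintype (RIdx K) := Fintype.ofFinite _
  let b : (RP hK).Base := RootPairing.Base.mk' (RP hK) (Set.range (simp' K))
    (simp'_linearIndepOn hK) (RP_mem_or_neg_mem hK)
  have hmem : ∀ v : RIdx K, v ∈ b.support ↔ v ∈ Set.range (simp' K) := by
    intro v
    exact Set.Finite.mem_toFinset _
  let s : ι → b.support := fun a => ⟨simp' K a, (hmem _).mpr ⟨a, rfl⟩⟩
  have hs : Function.Injective s := fun a a' h => simp'_injective K (congrArg Subtype.val h)
  have hcart : ∀ i j, ((b.cartanMatrix (s i) (s j) : ℤ) : ℝ) = (K i j : ℝ) := by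
    intro i j
    have h1 := b.algebraMap_cartanMatrixIn_apply ℤ (s i) (s j)
    have h2 : (RP hK).pairing (s i) (s j) = (K i j : ℝ) := by
      rw [RP_pairing]
      show cor hK (Pi.single j 1) (Pi.single i 1) = _
      rw [cor_simple, eg1_pj_single]
    rw [h2] at h1
    exact h1
  refine ⟨b.support ⊕ RIdx K, inferInstance, inferInstance,
    fun a => RootPairing.GeckConstruction.e (s a), fun a => RootPairing.GeckConstruction.f (s a),
    fun a => RootPairing.GeckConstruction.h (s a), ?_, ?_, ?_, ?_, ?_, ?_⟩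
  · exact (RootPairing.GeckConstruction.linearIndependent_h b).comp s hs
  · intro i j
    have h1 := RootPairing.GeckConstruction.lie_h_h (s i) (s j)
    rw [Ring.lie_def, sub_eq_zero] at h1
    exact h1
  · intro i j
    have h1 := RootPairing.GeckConstruction.lie_h_e (s i) (s j)
    rw [Ring.lie_def] at h1
    show RootPairing.GeckConstruction.h (s j) * RootPairing.GeckConstruction.e (s i) -
      RootPairing.GeckConstruction.e (s i) * RootPairing.GeckConstruction.h (s j) = _
    rw [h1, ← hcart i j, Int.cast_smul_eq_zsmul]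
  · intro i j
    have h1 := RootPairing.GeckConstruction.lie_h_f (s i) (s j)
    rw [Ring.lie_def] at h1
    show RootPairing.GeckConstruction.h (s j) * RootPairing.GeckConstruction.f (s i) -
      RootPairing.GeckConstruction.f (s i) * RootPairing.GeckConstruction.h (s j) = _
    rw [h1, ← hcart i j, neg_smul, neg_smul, Int.cast_smul_eq_zsmul]
  · intro i
    have h1 := RootPairing.GeckConstruction.lie_e_f_same (s i)
    rw [Ring.lie_def] at h1
    exact h1
  · intro i j hij
    have h1 := RootPairing.GeckConstruction.lie_e_f_ne (i := s i) (j := s j)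
      (fun h => hij (hs h))
    rw [Ring.lie_def] at h1
    exact h1

end Pool.MP_ad5d82_an.Eig
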