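/-
MP_ad5d82_an, part A4, module EG8: principal sl2 (helper5).
-/
import Pool.Agent.Lib.MP_ad5d82_an.h24.Eig.EG7

set_option autoImplicit false

namespace Pool.MP_ad5d82_an.Eig

open Matrix

/-- the ladder argument for `sl₂` -/
theorem eg8_ladder {N : Type} [Fintype N] [DecidableEq N] (E F H X : Matrix N N ℝ) (l : ℝ)
    (hEF : E * F - F * E = H) (hHE : H * E - E * H = (2 : ℝ) • E) (hHX : H * X - X * H = 0)
    (hX : X ≠ 0) (hFX : E * (F * X - X * F) - (F * X - X * F) * E = l • X) :
    ∃ n : ℕ, l = n * (n + 1) := by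
  by_contra hcon
  rw [not_exists] at hcon
  set Y : ℕ → Matrix N N ℝ := fun n => Nat.rec X (fun _ Z => E * Z - Z * E) n with hY
  have hY0 : Y 0 = X := rfl
  have hYs : ∀ n, Y (n + 1) = E * Y n - Y n * E := fun n => rfl
  have hH : ∀ n, H * Y n - Y n * H = ((2 * n : ℕ) : ℝ) • Y n := by
    intro n
    induction n with
    | zero => rw [hY0, hHX]; simp
    | succ n ih =>
      rw [hYs]
      have h1 : H * (E * Y n - Y n * E) - (E * Y n - Y n * E) * H =
          ((H * E - E * H) * Y n - Y n * (H * E - E * H)) +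
          (E * (H * Y n - Y n * H) - (H * Y n - Y n * H) * E) := by
        noncomm_ring
      rw [h1, hHE, ih]
      simp only [smul_mul_assoc, mul_smul_comm]
      rw [← smul_sub, ← smul_sub, ← add_smul]
      congr 1
      push_cast
      ring
  have hF : ∀ n, F * Y (n + 1) - Y (n + 1) * F = (l - n * (n + 1)) • Y n := by
    intro n
    induction n with
    | zero =>
      rw [hYs, hY0]
      have h1 : F * (E * X - X * E) - (E * X - X * E) * F =
          (E * (F * X - X * F) - (F * X - X * F) * E) - ((E * F - F * E) * X -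
            X * (E * F - F * E)) := by
        noncomm_ring
      rw [h1, hFX, hEF, hHX]
      simp
    | succ n ih =>
      rw [hYs (n + 1)]
      have h1 : F * (E * Y (n + 1) - Y (n + 1) * E) - (E * Y (n + 1) - Y (n + 1) * E) * F =
          (E * (F * Y (n + 1) - Y (n + 1) * F) - (F * Y (n + 1) - Y (n + 1) * F) * E) -
          ((E * F - F * E) * Y (n + 1) - Y (n + 1) * (E * F - F * E)) := by
        noncomm_ring
      rw [h1, ih, hEF, hH (n + 1)]
      simp only [smul_mul_assoc, mul_smul_comm]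
      rw [← smul_sub, ← hYs n, ← sub_smul]
      congr 1
      push_cast
      ring
  have hne : ∀ n, Y n ≠ 0 := by
    intro n
    induction n with
    | zero => exact hX
    | succ n ih =>
      intro h
      have h1 := hF n
      rw [h] at h1
      simp only [mul_zero, zero_mul, sub_self] at h1
      rcases smul_eq_zero.mp h1.symm with h2 | h2
      · exact hcon n (by linarith)
      · exact ih h2
  -- infinitely many eigenvalues
  set A : Module.End ℝ (Matrix N N ℝ) := LinearMap.mulLeft ℝ H - LinearMap.mulRight ℝ H with hA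
  have hinj : Function.Injective fun n : ℕ => ((2 * n : ℕ) : ℝ) := by
    intro a b hab
    have h1 : ((2 * a : ℕ) : ℝ) = ((2 * b : ℕ) : ℝ) := hab
    have h2 : 2 * a = 2 * b := Nat.cast_injective h1
    omega
  have hli := Module.End.eigenvectors_linearIndependent' A (fun n : ℕ => ((2 * n : ℕ) : ℝ)) hinj Y
    (by
      intro n
      rw [Module.End.hasEigenvector_iff, Module.End.mem_eigenspace_iff]
      refine ⟨?_, hne n⟩
      rw [hA, LinearMap.sub_apply, LinearMap.mulLeft_apply, LinearMap.mulRight_apply]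
      exact hH n)
  have hfin : Finite ℕ := hli.finite
  exact not_finite ℕ

variable {ι : Type} [Fintype ι] [DecidableEq ι]

omit [DecidableEq ι] in
/-- principal `sl₂` for matrices satisfying the Serre type relations -/
theorem eg8_core {K : Matrix ι ι ℤ} {N : Type} [Fintype N] [DecidableEq N]
    (e f h : ι → Matrix N N ℝ) (hli : LinearIndependent ℝ h)
    (hhh : ∀ i j, h i * h j = h j * h i)
    (hhe : ∀ i j, h j * e i - e i * h j = (K i j : ℝ) • e i)
    (hhf : ∀ i j, h j * f i - f i * h j = -(K i j : ℝ) • f i)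
    (hef : ∀ i, e i * f i - f i * e i = h i)
    (hef' : ∀ i j, i ≠ j → e i * f j - f j * e i = 0)
    (κ : ι → ℝ) (hκ : ∀ a, ∑ b, (K a b : ℝ) * κ b = 1) (μ : ℝ) (hμ : 0 < μ)
    (x : ι → ℝ) (hx : x ≠ 0) (hxe : ∀ a, ∑ b, (K a b : ℝ) * κ b * x b = μ * x a) :
    ∃ m : ℕ, 1 ≤ m ∧ μ = m * (m + 1) / 2 := by
  set E : Matrix N N ℝ := ∑ i, e i with hE
  set F : Matrix N N ℝ := ∑ i, (2 * κ i) • f i with hF
  set H : Matrix N N ℝ := ∑ i, (2 * κ i) • h i with hH
  set X : Matrix N N ℝ := ∑ i, (κ i * x i) • h i with hX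
  have hsum_ef : ∀ c : ι → ℝ, E * (∑ i, c i • f i) - (∑ i, c i • f i) * E = ∑ i, c i • h i := by
    intro c
    rw [hE, Finset.sum_mul_sum, Finset.sum_mul_sum, Finset.sum_comm, ← Finset.sum_sub_distrib]
    refine Finset.sum_congr rfl fun j _ => ?_
    rw [← Finset.sum_sub_distrib, Finset.sum_eq_single j]
    · rw [mul_smul_comm, smul_mul_assoc, ← smul_sub, hef]
    · intro i _ hij
      rw [mul_smul_comm, smul_mul_assoc, ← smul_sub, hef' i j hij, smul_zero]
    · intro h
      exact absurd (Finset.mem_univ j) h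
  have hcomm_h : ∀ c c' : ι → ℝ, (∑ i, c i • h i) * (∑ i, c' i • h i) =
      (∑ i, c' i • h i) * (∑ i, c i • h i) := by
    intro c c'
    rw [Finset.sum_mul_sum, Finset.sum_mul_sum, Finset.sum_comm]
    refine Finset.sum_congr rfl fun j _ => Finset.sum_congr rfl fun i _ => ?_
    simp only [smul_mul_assoc, mul_smul_comm]
    rw [hhh, smul_comm]
  have hEF : E * F - F * E = H := hsum_ef _
  have hHE : H * E - E * H = (2 : ℝ) • E := by
    rw [hH, hE, Finset.sum_mul_sum, Finset.sum_mul_sum, Finset.sum_comm,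
      ← Finset.sum_sub_distrib, Finset.smul_sum]
    refine Finset.sum_congr rfl fun i _ => ?_
    rw [← Finset.sum_sub_distrib]
    have h1 : ∀ j, (2 * κ j) • h j * e i - e i * (2 * κ j) • h j =
        (2 * ((K i j : ℝ) * κ j)) • e i := by
      intro j
      rw [mul_smul_comm, smul_mul_assoc, ← smul_sub, hhe, smul_smul]
      congr 1; ring
    simp only [h1]
    rw [← Finset.sum_smul, ← Finset.mul_sum, hκ, mul_one]
  have hHX : H * X - X * H = 0 := by
    rw [hH, hX, hcomm_h, sub_self]
  have hX0 : X ≠ 0 := by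
    intro h0
    apply hx
    rw [Fintype.linearIndependent_iff] at hli
    have h1 := hli _ h0
    funext a
    have h2 := hxe a
    have h3 : ∑ b, (K a b : ℝ) * κ b * x b = 0 := by
      refine Finset.sum_eq_zero fun b _ => ?_
      rw [mul_assoc, h1 b, mul_zero]
    rw [h3] at h2
    rcases mul_eq_zero.mp h2.symm with h4 | h4
    · exact absurd h4 hμ.ne'
    · exact h4
  have hFX0 : F * X - X * F = ∑ i, (2 * κ i * (μ * x i)) • f i := by
    rw [hF, hX, Finset.sum_mul_sum, Finset.sum_mul_sum]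
    rw [Finset.sum_comm (f := fun i j => (κ i * x i) • h i * (2 * κ j) • f j)]
    rw [← Finset.sum_sub_distrib]
    refine Finset.sum_congr rfl fun i _ => ?_
    rw [← Finset.sum_sub_distrib]
    have h1 : ∀ j, (2 * κ i) • f i * (κ j * x j) • h j - (κ j * x j) • h j * (2 * κ i) • f i =
        (2 * κ i * ((K i j : ℝ) * κ j * x j)) • f i := by
      intro j
      simp only [mul_smul_comm, smul_mul_assoc]
      have h2 : f i * h j = h j * f i + (K i j : ℝ) • f i := by
        have := hhf i j
        rw [neg_smul] at this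
        rw [← sub_eq_iff_eq_add', ← neg_sub, this, neg_neg]
      rw [h2, smul_add, smul_add, smul_comm (κ j * x j) (2 * κ i) (h j * f i), add_sub_cancel_left,
        smul_smul, smul_smul]
      congr 1; ring
    simp only [h1]
    rw [← Finset.sum_smul, ← Finset.mul_sum, hxe]
  have hFX : E * (F * X - X * F) - (F * X - X * F) * E = (2 * μ) • X := by
    rw [hFX0, hsum_ef, hX, Finset.smul_sum]
    refine Finset.sum_congr rfl fun i _ => ?_
    rw [smul_smul]
    congr 1; ring
  obtain ⟨n, hn⟩ := eg8_ladder E F H X (2 * μ) hEF hHE hHX hX0 hFX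
  refine ⟨n, ?_, by linarith⟩
  rcases Nat.eq_zero_or_pos n with h0 | h0
  · rw [h0] at hn
    simp at hn
    exact absurd hn hμ.ne'
  · exact h0

theorem eig_triangular {K : Matrix ι ι ℤ} (hK : IsFT K) (hirr : Irred K) [Nonempty ι]
    (κ : ι → ℝ) (hκ : ∀ a, ∑ b, (K a b : ℝ) * κ b = 1) (μ : ℝ) (hμ : 0 < μ)
    (x : ι → ℝ) (hx : x ≠ 0) (hxe : ∀ a, ∑ b, (K a b : ℝ) * κ b * x b = μ * x a) :
    ∃ m : ℕ, 1 ≤ m ∧ μ = m * (m + 1) / 2 := by
  obtain ⟨N, _, _, e, f, h, hli, hhh, hhe, hhf, hef, hef'⟩ := exists_lie hK hirr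
  exact eg8_core e f h hli hhh hhe hhf hef hef' κ hκ μ hμ x hx hxe

end Pool.MP_ad5d82_an.Eig
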