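/-
MP_ad5d82_an, part A4, module EG9: arithmetic (helper5).
-/
import Pool.Agent.Lib.MP_ad5d82_an.h24.EigDefs

set_option autoImplicit false

namespace Pool.MP_ad5d82_an.Eig

/-- `k_μ = μ H_{2μ-1}/(2μ-1)` is not an integer for triangular `μ > 1`. -/
theorem kmu_not_int (m : ℕ) (hm : 2 ≤ m) (μ : ℕ) (hμ : 2 * μ = m * (m + 1)) (k : ℤ) :
    (μ : ℚ) * harmonic (2 * μ - 1) / (2 * μ - 1 : ℕ) ≠ k := by
  intro h
  haveI : Fact (Nat.Prime 2) := ⟨Nat.prime_two⟩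
  have hμ0 : 0 < μ := by nlinarith
  have hn0 : 0 < 2 * μ - 1 := by omega
  have hharm : 0 < harmonic (2 * μ - 1) := harmonic_pos hn0.ne'
  have hμQ : (μ : ℚ) ≠ 0 := by exact_mod_cast hμ0.ne'
  have hnQ : ((2 * μ - 1 : ℕ) : ℚ) ≠ 0 := by exact_mod_cast hn0.ne'
  have hval := congrArg (padicValRat 2) h
  rw [padicValRat.div (mul_ne_zero hμQ hharm.ne') hnQ, padicValRat.mul hμQ hharm.ne',
    padicValRat_two_harmonic, padicValRat.of_nat, padicValRat.of_nat, padicValRat.of_int] at hval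
  have hodd : padicValNat 2 (2 * μ - 1) = 0 :=
    padicValNat.eq_zero_of_not_dvd (by omega)
  rw [hodd] at hval
  have hlog : Nat.log 2 (2 * μ - 1) ≤ padicValNat 2 μ := by omega
  have h1 : 2 ^ padicValNat 2 μ ≤ μ := Nat.le_of_dvd hμ0 pow_padicValNat_dvd
  have h2 : 2 * μ - 1 < 2 ^ (Nat.log 2 (2 * μ - 1) + 1) := Nat.lt_pow_succ_log_self one_lt_two _
  have h3 : 2 ^ (Nat.log 2 (2 * μ - 1) + 1) ≤ 2 ^ (padicValNat 2 μ + 1) :=
    Nat.pow_le_pow_right two_pos (by omega)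
  have h4 : 2 ^ (padicValNat 2 μ + 1) = 2 * μ := by
    rw [pow_succ] at h3 ⊢
    omega
  rw [hμ] at h4
  have hdm : m ∣ 2 ^ (padicValNat 2 μ + 1) := ⟨m + 1, h4⟩
  have hdm1 : (m + 1) ∣ 2 ^ (padicValNat 2 μ + 1) := ⟨m, by rw [h4, mul_comm]⟩
  obtain ⟨a, -, ha⟩ := (Nat.dvd_prime_pow Nat.prime_two).mp hdm
  obtain ⟨b, -, hb⟩ := (Nat.dvd_prime_pow Nat.prime_two).mp hdm1
  have ha0 : a ≠ 0 := by rintro rfl; simp at ha; omega
  have hb0 : b ≠ 0 := by rintro rfl; simp at hb; omega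
  have hea : 2 ∣ m := ha ▸ dvd_pow_self 2 ha0
  have heb : 2 ∣ m + 1 := hb ▸ dvd_pow_self 2 hb0
  omega

end Pool.MP_ad5d82_an.Eig
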